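import Pool.Agent.Helper67.FF.WEI

set_option autoImplicit false

namespace Pool.Agent.Helper60.FF

open Polynomial

theorem cpt_compact {p : ℕ} [Fact p.Prime] (E : IntermediateField ℚ_[p] ℂ_[p])
    (hE : FiniteDimensional ℚ_[p] E) : IsCompact {x : ℂ_[p] | x ∈ E ∧ ‖x‖ ≤ 1} := by
  have hE' : FiniteDimensional ℚ_[p] E.toSubmodule := hE
  have hP : ProperSpace E.toSubmodule := FiniteDimensional.proper ℚ_[p] E.toSubmodule
  have hK : IsCompact (Metric.closedBall (0 : E.toSubmodule) 1) := isCompact_closedBall _ _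
  have h1 := hK.image (continuous_subtype_val (p := fun x => x ∈ E.toSubmodule))
  convert h1 using 1
  ext x
  constructor
  · rintro ⟨hx, hx'⟩
    refine ⟨⟨x, hx⟩, ?_, rfl⟩
    rw [mem_closedBall_zero_iff]
    exact hx'
  · rintro ⟨y, hy, rfl⟩
    rw [mem_closedBall_zero_iff] at hy
    exact ⟨y.2, hy⟩

theorem st_CPT (hP : ST_PWR) (hL : ST_LFX) : ST_CPT := by
  intro p hp E hE κ g hκ hg0 hg
  have hK := cpt_compact E hE
  set U : Ultrafilter ℕ := Filter.hyperfilter ℕ with hU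
  have hUt : (U : Filter ℕ) ≤ Filter.atTop := by
    rw [hU]
    exact Nat.hyperfilter_le_atTop
  have hlim : ∀ u : ℕ → ℂ_[p], (∀ r, u r ∈ E ∧ ‖u r‖ ≤ 1) →
      ∃ x : ℂ_[p], (x ∈ E ∧ ‖x‖ ≤ 1) ∧ Filter.Tendsto u (U : Filter ℕ) (nhds x) := by
    intro u hu
    obtain ⟨x, hx, hx'⟩ := hK.ultrafilter_le_nhds (U.map u) (by
      rw [Filter.le_principal_iff, Ultrafilter.coe_map, Filter.mem_map]
      exact Filter.Eventually.of_forall fun r => hu r)
    exact ⟨x, hx, hx'⟩
  obtain ⟨κ₀, hκ₀, hκt⟩ := hlim κ fun r => ⟨(hκ r).1, (hκ r).2.le⟩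
  choose g₀ hg₀ hgt using fun k => hlim (fun r => g r k) fun r => hg r k
  have hκn : ‖κ₀‖ = 1 := by
    refine tendsto_nhds_unique hκt.norm ?_
    simp only [(hκ _).2]
    exact tendsto_const_nhds
  have hg₀0 : g₀ 0 = 1 := by
    refine tendsto_nhds_unique (hgt 0) ?_
    simp only [hg0]
    exact tendsto_const_nhds
  refine ⟨κ₀, g₀, hκ₀.1, hκn, hg₀0, hg₀, ?_⟩
  intro E' hE' x hx hx0 y hy W hW hxW
  have : IsAlgClosed (⊤ : Subfield ℂ_[p]) :=
    IsAlgClosed.of_ringEquiv ℂ_[p] (⊤ : Subfield ℂ_[p]) (Subfield.topEquiv).symm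
  obtain ⟨π, -, f, hLF⟩ := (hL p ⊤ inferInstance E' hE').2
  have hnorm : ∀ r, ‖x‖ = ‖W r‖ ^ r.factorial := by
    intro r
    conv_lhs => rw [hxW r]
    rw [norm_mul, norm_mul, (hκ r).2, norm_pow,
      wei_unit (g r) (fun k => (hg r k).2) (by rw [hg0, norm_one]) hy, one_mul, one_mul]
  have hW0 : ∀ r, W r ≠ 0 := by
    intro r h0
    have := hnorm r
    rw [h0, norm_zero, zero_pow (Nat.factorial_ne_zero r)] at this
    exact hx0 (norm_eq_zero.1 this)
  obtain ⟨j, hj⟩ := hLF.val x hx hx0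
  choose i hi using fun r => hLF.val (W r) (hW r) (hW0 r)
  have hji : ∀ r, j = i r * r.factorial := by
    intro r
    have h1 := hnorm r
    rw [hj, hi r, ← zpow_natCast, ← zpow_mul] at h1
    exact zpow_right_injective₀ hLF.pos hLF.lt.ne h1
  have hj0 : j = 0 := by
    by_contra hne
    have h1 := hji (j.natAbs + 1)
    have h2 : (j.natAbs + 1).factorial ∣ j.natAbs := by
      have h3 : (((j.natAbs + 1).factorial : ℕ) : ℤ) ∣ j := ⟨i (j.natAbs + 1), by
        conv_lhs => rw [h1]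
        ring⟩
      exact Int.natCast_dvd.1 h3
    have h4 := Nat.le_of_dvd (Int.natAbs_pos.2 hne) h2
    have h5 := Nat.self_le_factorial (j.natAbs + 1)
    omega
  have hWn : ∀ r, ‖W r‖ = 1 := by
    intro r
    have h1 := hji r
    rw [hj0] at h1
    have h2 : i r = 0 := by
      rcases mul_eq_zero.1 h1.symm with h | h
      · exact h
      · exact absurd (by exact_mod_cast h) (Nat.factorial_ne_zero r)
    rw [hi r, h2, zpow_zero]
  have hWt : Filter.Tendsto (fun r => (W r) ^ r.factorial) (U : Filter ℕ) (nhds 1) := by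
    refine Filter.Tendsto.mono_left ?_ hUt
    rw [Metric.tendsto_atTop]
    intro δ hδ
    obtain ⟨r₀, hr₀⟩ := (hP p E' hE').2 δ hδ
    refine ⟨r₀, fun r hr => ?_⟩
    rw [dist_eq_norm]
    exact hr₀ r hr (W r) (hW r) (hWn r)
  have hst : Filter.Tendsto (fun r => ∑' k, g r k * y ^ k) (U : Filter ℕ)
      (nhds (∑' k, g₀ k * y ^ k)) := by
    refine tendsto_tsum_of_dominated_convergence
      (summable_geometric_of_lt_one (norm_nonneg y) hy) (fun k => (hgt k).mul_const _)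
      (Filter.Eventually.of_forall fun r k => ?_)
    rw [norm_mul, norm_pow]
    exact mul_le_of_le_one_left (pow_nonneg (norm_nonneg y) k) (hg r k).2
  have h1 := (hκt.mul hst).mul hWt
  rw [mul_one] at h1
  refine tendsto_nhds_unique ?_ h1
  refine Filter.Tendsto.congr hxW ?_
  exact tendsto_const_nhds

end Pool.Agent.Helper60.FF
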