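import Pool.Agent.Helper60.FF.StmtsC

set_option autoImplicit false

namespace Pool.Agent.Helper60.FF

open Polynomial

variable {p : ℕ} [hp : Fact p.Prime]

/-- the ring of integers of `E` -/
def wei_O (E : IntermediateField ℚ_[p] ℂ_[p]) : Subring ℂ_[p] where
  carrier := {x | x ∈ E ∧ ‖x‖ ≤ 1}
  mul_mem' := by
    rintro a b ⟨ha, ha'⟩ ⟨hb, hb'⟩
    exact ⟨E.mul_mem ha hb, (OO p).mul_mem a b ha' hb'⟩
  one_mem' := ⟨E.one_mem, (OO p).one_mem⟩
  add_mem' := by
    rintro a b ⟨ha, ha'⟩ ⟨hb, hb'⟩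
    exact ⟨E.add_mem ha hb, (OO p).add_mem a b ha' hb'⟩
  zero_mem' := ⟨E.zero_mem, (OO p).zero_mem⟩
  neg_mem' := by
    rintro a ⟨ha, ha'⟩
    exact ⟨E.neg_mem ha, (OO p).neg_mem a ha'⟩

theorem wei_mem {E : IntermediateField ℚ_[p] ℂ_[p]} {x : ℂ_[p]} :
    x ∈ wei_O E ↔ x ∈ E ∧ ‖x‖ ≤ 1 := Iff.rfl

theorem wei_isUnit {E : IntermediateField ℚ_[p] ℂ_[p]} (x : wei_O E) :
    IsUnit x ↔ ‖(x : ℂ_[p])‖ = 1 := by
  constructor
  · intro h
    obtain ⟨y, hy⟩ := h.exists_right_inv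
    have h1 : (x : ℂ_[p]) * (y : ℂ_[p]) = 1 := congrArg Subtype.val hy
    have h2 : ‖(x : ℂ_[p])‖ * ‖(y : ℂ_[p])‖ = 1 := by rw [← norm_mul, h1, norm_one]
    have h3 := x.2.2
    have h4 := y.2.2
    nlinarith [norm_nonneg (x : ℂ_[p]), norm_nonneg (y : ℂ_[p])]
  · intro h
    have h0 : (x : ℂ_[p]) ≠ 0 := by
      intro h0
      rw [h0, norm_zero] at h
      exact zero_ne_one h
    refine IsUnit.of_mul_eq_one (⟨(x : ℂ_[p])⁻¹, E.inv_mem x.2.1, ?_⟩ : wei_O E) ?_
    · rw [norm_inv, h, inv_one]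
    · exact Subtype.ext (mul_inv_cancel₀ h0)

instance wei_local (E : IntermediateField ℚ_[p] ℂ_[p]) : IsLocalRing (wei_O E) := by
  refine IsLocalRing.of_isUnit_or_isUnit_one_sub_self fun a => ?_
  rw [wei_isUnit, wei_isUnit]
  by_cases h : ‖(a : ℂ_[p])‖ = 1
  · exact Or.inl h
  · right
    have h1 : ‖(a : ℂ_[p])‖ < 1 := lt_of_le_of_ne a.2.2 h
    have h2 : ‖(1 : ℂ_[p])‖ ≠ ‖-(a : ℂ_[p])‖ := by
      rw [norm_one, norm_neg]
      exact h1.ne'
    have h3 := IsUltrametricDist.norm_add_eq_max_of_norm_ne_norm h2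
    rw [norm_one, norm_neg, max_eq_left h1.le] at h3
    have h4 : (((1 - a : wei_O E)) : ℂ_[p]) = 1 + -(a : ℂ_[p]) := by
      push_cast
      ring
    rw [h4, h3]

theorem wei_max {E : IntermediateField ℚ_[p] ℂ_[p]} (x : wei_O E) :
    x ∈ IsLocalRing.maximalIdeal (wei_O E) ↔ ‖(x : ℂ_[p])‖ < 1 := by
  rw [IsLocalRing.mem_maximalIdeal, mem_nonunits_iff, wei_isUnit]
  exact ⟨fun h => lt_of_le_of_ne x.2.2 h, fun h => h.ne⟩

theorem wei_pow {E : IntermediateField ℚ_[p] ℂ_[p]} {π : ℂ_[p]} {f : ℕ} (h : LF E π f) (n : ℕ)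
    (x : wei_O E) :
    x ∈ (IsLocalRing.maximalIdeal (wei_O E)) ^ n ↔ ‖(x : ℂ_[p])‖ ≤ ‖π‖ ^ n := by
  have hπ0 : π ≠ 0 := norm_pos_iff.1 h.pos
  have hπ : π ∈ wei_O E := ⟨h.mem, h.lt.le⟩
  have hdvd : ∀ (m : ℕ) (y : wei_O E), (⟨π, hπ⟩ : wei_O E) ^ m ∣ y ↔ ‖(y : ℂ_[p])‖ ≤ ‖π‖ ^ m := by
    intro m y
    constructor
    · rintro ⟨c, rfl⟩
      have : (((⟨π, hπ⟩ : wei_O E) ^ m * c : wei_O E) : ℂ_[p]) = π ^ m * c := by
        push_cast
        rfl
      rw [this, norm_mul, norm_pow]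
      exact mul_le_of_le_one_right (pow_nonneg h.pos.le m) c.2.2
    · intro hy
      refine ⟨⟨(y : ℂ_[p]) / π ^ m, E.div_mem y.2.1 (pow_mem h.mem m), ?_⟩, ?_⟩
      · rw [norm_div, norm_pow, div_le_one (pow_pos h.pos m)]
        exact hy
      · apply Subtype.ext
        show (y : ℂ_[p]) = π ^ m * ((y : ℂ_[p]) / π ^ m)
        rw [mul_div_cancel₀ _ (pow_ne_zero m hπ0)]
  have hspan : IsLocalRing.maximalIdeal (wei_O E) = Ideal.span {(⟨π, hπ⟩ : wei_O E)} := by
    ext y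
    rw [wei_max, Ideal.mem_span_singleton, ← pow_one (⟨π, hπ⟩ : wei_O E), hdvd, pow_one]
    constructor
    · intro hy
      by_cases hy0 : (y : ℂ_[p]) = 0
      · rw [hy0, norm_zero]
        exact h.pos.le
      · obtain ⟨j, hj⟩ := h.val y y.2.1 hy0
        rw [hj] at hy ⊢
        have h1 : 0 < j := by
          by_contra h2
          push Not at h2
          have : 1 ≤ ‖π‖ ^ j := one_le_zpow_of_nonpos₀ h.pos h.lt.le h2
          exact absurd hy (not_lt.2 this)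
        calc ‖π‖ ^ j ≤ ‖π‖ ^ (1 : ℤ) := zpow_le_zpow_right_of_le_one₀ h.pos h.lt.le h1
          _ = ‖π‖ := zpow_one _
    · intro hy
      exact lt_of_le_of_lt hy h.lt
  rw [hspan, Ideal.span_singleton_pow, Ideal.mem_span_singleton, hdvd]

theorem wei_closed (E : IntermediateField ℚ_[p] ℂ_[p]) (hE : FiniteDimensional ℚ_[p] E) :
    IsClosed {x : ℂ_[p] | x ∈ E} := by
  have hE' : FiniteDimensional ℚ_[p] E.toSubmodule := hE
  exact Submodule.closed_of_finiteDimensional E.toSubmodule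

theorem wei_complete {E : IntermediateField ℚ_[p] ℂ_[p]} {π : ℂ_[p]} {f : ℕ} (h : LF E π f) :
    IsAdicComplete (IsLocalRing.maximalIdeal (wei_O E)) (wei_O E) := by
  have hsm : ∀ (n : ℕ) (x y : wei_O E),
      x ≡ y [SMOD ((IsLocalRing.maximalIdeal (wei_O E)) ^ n • ⊤ : Submodule (wei_O E) (wei_O E))] ↔
        ‖(x : ℂ_[p]) - y‖ ≤ ‖π‖ ^ n := by
    intro n x y
    rw [SModEq.sub_mem, ← Ideal.one_eq_top, smul_eq_mul, mul_one, wei_pow h]
    rfl
  have ht : Filter.Tendsto (fun n : ℕ => ‖π‖ ^ n) Filter.atTop (nhds 0) :=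
    tendsto_pow_atTop_nhds_zero_of_lt_one h.pos.le h.lt
  refine { haus' := ?_, prec' := ?_ }
  · intro x hx
    have h1 : ‖(x : ℂ_[p])‖ ≤ 0 := by
      refine ge_of_tendsto' ht fun n => ?_
      have := (hsm n x 0).1 (hx n)
      simpa using this
    exact Subtype.ext (norm_le_zero_iff.1 h1)
  · intro u hu
    have hu' : ∀ m n : ℕ, m ≤ n → ‖(u m : ℂ_[p]) - u n‖ ≤ ‖π‖ ^ m := fun m n hmn =>
      (hsm m _ _).1 (hu hmn)
    have hc : CauchySeq fun n => (u n : ℂ_[p]) := by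
      refine cauchySeq_of_le_tendsto_0 (fun n => ‖π‖ ^ n) ?_ ht
      intro n m N hn hm
      rw [dist_eq_norm]
      have e : (u n : ℂ_[p]) - u m = -((u N : ℂ_[p]) - u n) + ((u N : ℂ_[p]) - u m) := by ring
      rw [e]
      refine (IsUltrametricDist.norm_add_le_max _ _).trans (max_le ?_ ?_)
      · rw [norm_neg]
        exact hu' N n hn
      · exact hu' N m hm
    obtain ⟨L, hL⟩ := cauchySeq_tendsto_of_complete hc
    have hLE : L ∈ E := (wei_closed E h.fin).mem_of_tendsto hL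
      (Filter.Eventually.of_forall fun n => (u n).2.1)
    have hL1 : ‖L‖ ≤ 1 := le_of_tendsto' hL.norm fun n => (u n).2.2
    refine ⟨⟨L, hLE, hL1⟩, fun n => ?_⟩
    rw [hsm]
    refine le_of_tendsto (tendsto_const_nhds.sub hL).norm ?_
    filter_upwards [Filter.eventually_ge_atTop n] with m hm
    exact hu' n m hm

theorem wei_summable (g : ℕ → ℂ_[p]) (hg : ∀ k, ‖g k‖ ≤ 1) {y : ℂ_[p]} (hy : ‖y‖ < 1) :
    Summable fun k => ‖g k * y ^ k‖ := by
  refine Summable.of_nonneg_of_le (fun k => norm_nonneg _) (fun k => ?_)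
    (summable_geometric_of_lt_one (norm_nonneg y) hy)
  rw [norm_mul, norm_pow]
  exact mul_le_of_le_one_left (pow_nonneg (norm_nonneg y) k) (hg k)

theorem wei_unit (g : ℕ → ℂ_[p]) (hg : ∀ k, ‖g k‖ ≤ 1) (h0 : ‖g 0‖ = 1) {y : ℂ_[p]} (hy : ‖y‖ < 1) :
    ‖∑' k, g k * y ^ k‖ = 1 := by
  have hs := (wei_summable g hg hy).of_norm
  rw [hs.tsum_eq_zero_add]
  have h1 : ‖∑' k, g (k + 1) * y ^ (k + 1)‖ ≤ ‖y‖ := by
    refine (IsUltrametricDist.norm_tsum_le _).trans (ciSup_le fun k => ?_)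
    rw [norm_mul, norm_pow]
    refine (mul_le_of_le_one_left (pow_nonneg (norm_nonneg y) _) (hg _)).trans ?_
    rw [pow_succ]
    exact mul_le_of_le_one_left (norm_nonneg y) (pow_le_one₀ (norm_nonneg y) hy.le)
  have h2 : ‖g 0 * y ^ 0‖ = 1 := by rw [pow_zero, mul_one, h0]
  have h3 : ‖g 0 * y ^ 0‖ ≠ ‖∑' k, g (k + 1) * y ^ (k + 1)‖ := by
    rw [h2]
    exact (h1.trans_lt hy).ne'
  rw [IsUltrametricDist.norm_add_eq_max_of_norm_ne_norm h3, h2]
  exact max_eq_left (h1.trans hy.le)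

theorem st_WEI (hL : ST_LFX) : ST_WEI := by
  intro p hp E hE g hg hne
  have : IsAlgClosed (⊤ : Subfield ℂ_[p]) :=
    IsAlgClosed.of_ringEquiv ℂ_[p] (⊤ : Subfield ℂ_[p]) (Subfield.topEquiv).symm
  obtain ⟨π, -, f, hLF⟩ := (hL p ⊤ inferInstance E hE).2
  have := wei_complete hLF
  have hval : ∀ k, g k ≠ 0 → ∃ j : ℕ, ‖g k‖ = ‖π‖ ^ j := by
    intro k hk
    obtain ⟨j, hj⟩ := hLF.val (g k) (hg k).1 hk
    have h1 : 0 ≤ j := by
      by_contra h2
      push Not at h2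
      have h3 : 1 < ‖π‖ ^ j := one_lt_zpow_of_neg₀ hLF.pos hLF.lt h2
      rw [← hj] at h3
      exact absurd (hg k).2 (not_le.2 h3)
    obtain ⟨i, rfl⟩ := Int.eq_ofNat_of_zero_le h1
    exact ⟨i, by rw [hj]; exact zpow_natCast _ _⟩
  classical
  have hex : ∃ j : ℕ, ∃ k, g k ≠ 0 ∧ ‖g k‖ = ‖π‖ ^ j := by
    obtain ⟨k, hk⟩ := hne
    obtain ⟨j, hj⟩ := hval k hk
    exact ⟨j, k, hk, hj⟩
  obtain ⟨k₀, hk₀, hk₀'⟩ := Nat.find_spec hex
  have hmax : ∀ k, ‖g k‖ ≤ ‖g k₀‖ := by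
    intro k
    by_cases hk : g k = 0
    · rw [hk, norm_zero]
      exact norm_nonneg _
    · obtain ⟨j, hj⟩ := hval k hk
      rw [hj, hk₀']
      exact pow_le_pow_of_le_one hLF.pos.le hLF.lt.le (Nat.find_min' hex ⟨k, hk, hj⟩)
  have hc0 : 0 < ‖g k₀‖ := norm_pos_iff.2 hk₀
  set G : PowerSeries (wei_O E) := PowerSeries.mk fun k =>
    ⟨g k / g k₀, E.div_mem (hg k).1 (hg k₀).1, by
      rw [norm_div, div_le_one hc0]
      exact hmax k⟩ with hG
  have hG0 : G.map (IsLocalRing.residue (wei_O E)) ≠ 0 := by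
    intro h0
    have h1 := congrArg (fun F => PowerSeries.coeff k₀ F) h0
    simp only [PowerSeries.coeff_map, map_zero] at h1
    rw [IsLocalRing.residue_eq_zero_iff, wei_max] at h1
    have h2 : ((PowerSeries.coeff k₀ G : wei_O E) : ℂ_[p]) = 1 := by
      rw [hG, PowerSeries.coeff_mk]
      exact div_self hk₀
    rw [h2, norm_one] at h1
    exact lt_irrefl _ h1
  obtain ⟨F, H, hFH⟩ := PowerSeries.exists_isWeierstrassFactorization hG0
  have hmon := hFH.isDistinguishedAt.monic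
  have hdist : ∀ {i : ℕ}, i < F.natDegree → F.coeff i ∈ IsLocalRing.maximalIdeal (wei_O E) :=
    fun {i} hi => hFH.isDistinguishedAt.mem hi
  have hunit : ‖((PowerSeries.coeff 0 H : wei_O E) : ℂ_[p])‖ = 1 := by
    rw [← wei_isUnit]
    have := (PowerSeries.isUnit_iff_constantCoeff).1 hFH.isUnit
    rwa [← PowerSeries.coeff_zero_eq_constantCoeff_apply] at this
  refine ⟨F.map (wei_O E).subtype, ‖g k₀‖, hmon.map _, ?_, ?_, hc0, ?_⟩
  · intro j
    rw [coeff_map]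
    exact (F.coeff j).2.1
  · intro x hx
    by_contra hx1
    push Not at hx1
    have h1 : (F.map (wei_O E).subtype).eval x = x ^ F.natDegree +
        ∑ i ∈ Finset.range F.natDegree, ((F.coeff i : wei_O E) : ℂ_[p]) * x ^ i := by
      rw [eval_map, eval₂_eq_sum_range, Finset.sum_range_succ, add_comm]
      congr 1
      rw [show F.coeff F.natDegree = 1 from hmon, map_one, one_mul]
    have h2 : ‖∑ i ∈ Finset.range F.natDegree, ((F.coeff i : wei_O E) : ℂ_[p]) * x ^ i‖ <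
        ‖x ^ F.natDegree‖ := by
      have hpos : 0 < ‖x ^ F.natDegree‖ := by
        rw [norm_pow]
        exact pow_pos (lt_of_lt_of_le one_pos hx1) _
      rcases Nat.eq_zero_or_pos F.natDegree with hN | hN
      · rw [hN, Finset.sum_range_zero, norm_zero]
        rwa [hN] at hpos
      · have hne' : (Finset.range F.natDegree).Nonempty := ⟨0, Finset.mem_range.2 hN⟩
        obtain ⟨i, hi, hle⟩ := IsUltrametricDist.exists_norm_finsetSum_le_of_nonempty hne'
          (fun i => ((F.coeff i : wei_O E) : ℂ_[p]) * x ^ i)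
        refine hle.trans_lt ?_
        rw [Finset.mem_range] at hi
        have h3 := (wei_max _).1 (hdist hi)
        rw [norm_mul, norm_pow, norm_pow]
        calc ‖((F.coeff i : wei_O E) : ℂ_[p])‖ * ‖x‖ ^ i < 1 * ‖x‖ ^ i :=
              mul_lt_mul_of_pos_right h3 (pow_pos (lt_of_lt_of_le one_pos hx1) _)
          _ ≤ ‖x‖ ^ F.natDegree := by
              rw [one_mul]
              exact pow_le_pow_right₀ hx1 hi.le
    have h3 := IsUltrametricDist.norm_add_eq_max_of_norm_ne_norm h2.ne'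
    rw [← h1, hx, norm_zero, max_eq_left h2.le] at h3
    rw [← h3] at h2
    exact absurd h2 (not_lt.2 (norm_nonneg _))
  · intro y hy
    have e1 : ∑' k, g k * y ^ k = g k₀ * ((F.map (wei_O E).subtype).eval y *
        ∑' k, ((PowerSeries.coeff k H : wei_O E) : ℂ_[p]) * y ^ k) := by
      have hFs : (F.map (wei_O E).subtype).eval y = ∑' k, ((F.coeff k : wei_O E) : ℂ_[p]) * y ^ k := by
        rw [eval_map, eval₂_eq_sum_range, tsum_eq_sum]
        · rfl
        · intro k hk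
          rw [Finset.mem_range, not_lt] at hk
          rw [coeff_eq_zero_of_natDegree_lt (by omega)]
          simp
      rw [hFs, tsum_mul_tsum_eq_tsum_sum_antidiagonal_of_summable_norm
        (wei_summable _ (fun k => (F.coeff k).2.2) hy)
        (wei_summable _ (fun k => (PowerSeries.coeff k H).2.2) hy), ← tsum_mul_left]
      refine tsum_congr fun k => ?_
      have h1 : (PowerSeries.coeff k G : wei_O E) =
          ∑ ij ∈ Finset.HasAntidiagonal.antidiagonal k, F.coeff ij.1 * PowerSeries.coeff ij.2 H := by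
        rw [hFH.eq_mul, PowerSeries.coeff_mul]
        refine Finset.sum_congr rfl fun ij _ => ?_
        rw [Polynomial.coeff_coe]
      have h2 : ((PowerSeries.coeff k G : wei_O E) : ℂ_[p]) = g k / g k₀ := by
        rw [hG, PowerSeries.coeff_mk]
      have h3 := congrArg (Subtype.val : wei_O E → ℂ_[p]) h1
      rw [h2] at h3
      have h4 : g k = g k₀ * (g k / g k₀) := by
        rw [mul_div_cancel₀ _ hk₀]
      rw [h4, h3, mul_assoc]
      congr 1
      push_cast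
      rw [Finset.sum_mul]
      refine Finset.sum_congr rfl fun ij hij => ?_
      rw [← Finset.HasAntidiagonal.mem_antidiagonal.1 hij, pow_add]
      ring
    rw [e1, norm_mul, norm_mul, wei_unit _ (fun k => (PowerSeries.coeff k H).2.2) hunit hy, mul_one]

end Pool.Agent.Helper60.FF
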