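import Pool.Agent.Helper60.FF.StmtsC

set_option autoImplicit false

namespace Pool.Agent.Helper60.FF

open Polynomial

theorem m2_lin {L : Type} [Field L] (A : Subfield L) (n : ℕ)
    (β : Fin (n + 1) → L) (P : Fin (n + 1) → Polynomial A) (f : L →ₗ[A] A) (s : L)
    (N : Polynomial A)
    (h : ∑ l, C (β l) * (P l).map A.subtype = C s * N.map A.subtype) :
    ∑ l, C (f (β l)) * P l = C (f s) * N := by
  ext j
  have hj := congrArg (fun Q : Polynomial L => Q.coeff j) h
  simp only [finsetSum_coeff, coeff_C_mul, coeff_map] at hj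
  have hf := congrArg f hj
  rw [map_sum] at hf
  have key : ∀ (x : L) (a : A), f (x * A.subtype a) = f x * a := by
    intro x a
    have : x * A.subtype a = a • x := by
      rw [Subfield.smul_def, smul_eq_mul, mul_comm]
      rfl
    rw [this, map_smul, smul_eq_mul, mul_comm]
  simp only [key] at hf
  simp only [finsetSum_coeff, coeff_C_mul]
  rw [hf]

theorem m2_eval {K : Type} [Field K] (n : ℕ) (c : Fin (n + 1) → K) (b : Fin (n + 1) → K)
    (r : Fin (n + 1) → Polynomial K) (q : Polynomial K) :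
    (∑ l, C (C (b l) * r l) * (Lagrange.basis Finset.univ c l).map C).eval q =
      ∑ l, C (b l) * (r l * (Lagrange.basis Finset.univ c l).comp q) := by
  rw [eval_finsetSum]
  refine Finset.sum_congr rfl fun l _ => ?_
  rw [eval_mul, eval_C, eval_map, mul_assoc]
  rfl

theorem m2_node {K : Type} [Field K] (n : ℕ) (c : Fin (n + 1) → K) (hc : Function.Injective c)
    (b : Fin (n + 1) → K) (r : Fin (n + 1) → Polynomial K) (i : Fin (n + 1)) :
    (∑ l, C (C (b l) * r l) * (Lagrange.basis Finset.univ c l).map C).eval (C (c i)) =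
      C (b i) * r i := by
  rw [m2_eval, Finset.sum_eq_single i]
  · have h1 : (Lagrange.basis Finset.univ c i).comp (C (c i)) = 1 := by
      rw [comp_C, Lagrange.eval_basis_self (hc.injOn) (Finset.mem_univ i), C_1]
    rw [h1, mul_one]
  · intro l _ hl
    have h1 : (Lagrange.basis Finset.univ c l).comp (C (c i)) = 0 := by
      rw [comp_C, Lagrange.eval_basis_of_ne hl (Finset.mem_univ i), C_0]
    rw [h1, mul_zero, mul_zero]
  · intro h
    exact absurd (Finset.mem_univ i) h

theorem st_M2 (hW : ST_WRO) : ST_M2 := by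
  intro L _ _ A n c β r hc hβ hr hyp l₀
  by_contra hl
  -- linear forms
  have h1 : β l₀ ∉ Submodule.span A ({(1 : L)} : Set L) := by
    intro h
    obtain ⟨a, ha⟩ := Submodule.mem_span_singleton.1 h
    apply hl
    rw [← ha, Subfield.smul_def, smul_eq_mul, mul_one]
    exact a.2
  obtain ⟨f₁, hf₁, hf₁'⟩ := Submodule.exists_le_ker_of_notMem h1
  have h2 : (1 : L) ∉ (⊥ : Submodule A L) := by
    rw [Submodule.mem_bot]
    exact one_ne_zero
  obtain ⟨g₁, hg₁, -⟩ := Submodule.exists_le_ker_of_notMem h2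
  set f : L →ₗ[A] A := (f₁ (β l₀))⁻¹ • f₁ with hf
  set g : L →ₗ[A] A := (g₁ 1)⁻¹ • g₁ with hg
  have f1 : f 1 = 0 := by
    have : f₁ 1 = 0 := LinearMap.mem_ker.1 (hf₁' (Submodule.mem_span_singleton_self _))
    rw [hf, LinearMap.smul_apply, this, smul_zero]
  have fb : f (β l₀) = 1 := by
    rw [hf, LinearMap.smul_apply, smul_eq_mul, inv_mul_cancel₀ hf₁]
  have g1 : g 1 = 1 := by
    rw [hg, LinearMap.smul_apply, smul_eq_mul, inv_mul_cancel₀ hg₁]
  set F : Polynomial (Polynomial A) :=
    ∑ l, C (C (f (β l)) * r l) * (Lagrange.basis Finset.univ c l).map C with hF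
  set G : Polynomial (Polynomial A) :=
    ∑ l, C (C (g (β l)) * r l) * (Lagrange.basis Finset.univ c l).map C with hG
  have key : ∀ a b : A, ∃ x y : A, (x ≠ 0 ∨ y ≠ 0) ∧
      C x * F.eval (C a + C b * X) = C y * G.eval (C a + C b * X) := by
    intro a b
    obtain ⟨s, N, hN⟩ := hyp a b
    have e1 : F.eval (C a + C b * X) = C (f s) * N := by
      rw [hF, m2_eval]
      exact m2_lin A n β _ f s N hN
    have e2 : G.eval (C a + C b * X) = C (g s) * N := by
      rw [hG, m2_eval]
      exact m2_lin A n β _ g s N hN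
    by_cases h0 : g s ≠ 0 ∨ f s ≠ 0
    · refine ⟨g s, f s, h0, ?_⟩
      rw [e1, e2]
      ring
    · push Not at h0
      refine ⟨1, 0, Or.inl one_ne_zero, ?_⟩
      rw [e1, e2, h0.1, h0.2]
      simp
  have hG0 : G ≠ 0 := by
    intro h
    have h3 := m2_node n c hc (fun l => g (β l)) r 0
    rw [← hG, h, eval_zero, hβ, g1, C_1, one_mul] at h3
    exact hr 0 h3.symm
  obtain ⟨ρ, hρ⟩ := hW A F G Set.univ Set.infinite_univ hG0
    (fun a _ => by
      obtain ⟨x, y, hxy, he⟩ := key a 0
      refine ⟨x, y, hxy, ?_⟩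
      simpa using he)
    (fun a _ => by
      obtain ⟨x, y, hxy, he⟩ := key a 1
      refine ⟨x, y, hxy, ?_⟩
      simpa using he)
  have h4 := m2_node n c hc (fun l => f (β l)) r 0
  rw [← hF, hρ, eval_mul, eval_C, hG, m2_node n c hc (fun l => g (β l)) r 0, hβ, f1, g1, C_0,
    zero_mul, C_1, one_mul] at h4
  have hρ0 : (C ρ : Polynomial A) = 0 := (mul_eq_zero.1 h4).resolve_right (hr 0)
  have h5 := m2_node n c hc (fun l => f (β l)) r l₀
  rw [← hF, hρ, hρ0, C_0, zero_mul, eval_zero, fb, C_1, one_mul] at h5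
  exact hr l₀ h5.symm

end Pool.Agent.Helper60.FF
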